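import Pool.Agent.V8H16.Theta.Tree

set_option autoImplicit false
set_option maxRecDepth 100000

namespace Pool.Agent.V8H16.Theta

theorem pths_ok : ∀ k < 8, ((pths k).all fun l => match l.head?, l.getLast? with
    | some a, some b => ! decide (a < b) || (cand (ix a b)).elem l
    | _, _ => true) = true := by decide +kernel

theorem ix_ok : ∀ a b : Fin 8, a < b → ix a b < 28 ∧ pr (ix a b) = (a, b) := by decide +kernel

theorem pr_lt : ∀ q < 28, (pr q).1 < (pr q).2 ∧ ix (pr q).1 (pr q).2 = q := by decide +kernel

theorem cand_len : ∀ q < 28, (cand q).length ≤ 4 ∧ (cand q).Nodup := by decide +kernel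

theorem esh_symm : ∀ a b : Fin 8, esh a b = esh b a := by decide +kernel

theorem esh_edge : ∀ a b : Fin 8, b ∈ nbr a → ∃ i < 9, esh a b = 6 * i := by decide +kernel

theorem seg_path {G : SimpleGraph (Fin 8)} {u v a b : Fin 8} {l m : List (Fin 8)}
    (h : IsPathFrom G u v l) (hm : m <:+: l) (ha : m.head? = some a) (hb : m.getLast? = some b) :
    IsPathFrom G a b m := by
  refine ⟨?_, h.2.1.sublist hm.sublist, ha, hb⟩
  obtain ⟨x, y, hxy⟩ := hm
  have h1 := h.1
  rw [← hxy] at h1
  exact h1.left_of_append.right_of_append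

theorem rev_path {G : SimpleGraph (Fin 8)} {u v : Fin 8} {l : List (Fin 8)}
    (h : IsPathFrom G u v l) : IsPathFrom G v u l.reverse := by
  refine ⟨?_, List.nodup_reverse.2 h.2.1, ?_, ?_⟩
  · rw [List.isChain_reverse]
    exact h.1.imp fun a b hab => hab.symm
  · rw [List.head?_reverse]; exact h.2.2.2
  · rw [List.getLast?_reverse]; exact h.2.2.1

theorem complete {u v : Fin 8} {l : List (Fin 8)} (h : IsPathFrom G8 u v l) (huv : u < v) :
    l ∈ cand (ix u v) := by
  have hne : l ≠ [] := by
    rintro rfl
    have := h.2.2.1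
    simp at this
  have h1 := mem_pths l h.1 h.2.1 hne
  have h2 : l.length ≤ 8 := by
    have := h.2.1.length_le_card
    simpa using this
  have h3 : l.length - 1 < 8 := by
    have : 0 < l.length := List.length_pos_iff.2 hne
    omega
  have h4 := List.all_eq_true.1 (pths_ok _ h3) l h1
  rw [h.2.2.1, h.2.2.2] at h4
  simpa [huv] using h4

/-- the state `s` allows all choices `ch q` -/
def Comp (ch : ℕ → List (Fin 8)) (s : ℕ) : Prop :=
  ∀ q < 28, ∀ j < 4, (cand q)[j]? = some (ch q) → s.testBit (4 * q + j) = true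

theorem Comp.and {ch : ℕ → List (Fin 8)} {s s' : ℕ} (h : Comp ch s) (h' : Comp ch s') :
    Comp ch (s &&& s') := by
  intro q hq j hj hc
  rw [Nat.testBit_and, h q hq j hj hc, h' q hq j hj hc]
  rfl

theorem idx_lt {q : ℕ} (hq : q < 28) {m : List (Fin 8)} (hm : m ∈ cand q) :
    (cand q).idxOf m < 4 :=
  lt_of_lt_of_le (List.idxOf_lt_length_iff.2 hm) (cand_len q hq).1

theorem upd_comp {ch : ℕ → List (Fin 8)} {s q : ℕ} (hq : q < 28) {m : List (Fin 8)}
    (hm : m ∈ cand q) (hc : ch q = m) (h : Comp ch s) : Comp ch (upd s q m) := by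
  refine h.and ?_
  intro q' hq' j hj hj'
  rw [restr_bit q hq _ (idx_lt hq hm) q' hq' j hj]
  by_cases hqq : q' = q
  · subst hqq
    rw [hc] at hj'
    have h1 : j < (cand q').length := by
      by_contra hlt
      rw [List.getElem?_eq_none (not_lt.1 hlt)] at hj'
      simp at hj'
    have h2 : (cand q')[j] = m := by
      rw [List.getElem?_eq_getElem h1] at hj'
      exact Option.some.inj hj'
    have h3 : (cand q').idxOf m = j := by
      rw [← h2]
      exact (cand_len q' hq').2.idxOf_getElem j h1
    simp [h3]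
  · simp [hqq]

variable {P : PathSystem G8}

/-- choices of a path system -/
def chs (P : PathSystem G8) (q : ℕ) : List (Fin 8) := P.path (pr q).1 (pr q).2

theorem step_comp (hP : Consistent P) {p : ℕ} {m : List (Fin 8)} (hm : m <:+: chs P p) {s : ℕ}
    (h : Comp (chs P) s) : Comp (chs P) (step s m) := by
  unfold step
  split
  · rename_i a b ha hb
    have hpath := seg_path (P.isPath _ _) hm ha hb
    have heq : m = P.path a b := hP _ _ a b m hm hpath
    split_ifs with h1 h2
    · refine upd_comp (ix_ok a b h1).1 (complete hpath h1) ?_ h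
      unfold chs
      rw [(ix_ok a b h1).2]
      exact heq.symm
    · refine upd_comp (ix_ok b a h2).1 (complete (rev_path hpath) h2) ?_ h
      unfold chs
      rw [(ix_ok b a h2).2]
      show P.path b a = m.reverse
      rw [P.symm a b, ← heq]
    · exact h
  · exact h

theorem fold_comp (hP : Consistent P) {p : ℕ} : ∀ (L : List (List (Fin 8))) (s : ℕ),
    (∀ m ∈ L, m <:+: chs P p) → Comp (chs P) s → Comp (chs P) (L.foldl step s)
  | [], _, _, h => h
  | m :: L, s, hL, h => by
    rw [List.foldl_cons]
    exact fold_comp hP L _ (fun x hx => hL x (List.mem_cons_of_mem _ hx))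
      (step_comp hP (hL m List.mem_cons_self) h)

theorem segs_sub {l m : List (Fin 8)} (h : m ∈ segs l) : m <:+: l := by
  unfold segs at h
  rw [List.mem_flatMap] at h
  obtain ⟨x, hx, hm⟩ := h
  exact ((List.mem_tails _ _).1 hm).isInfix.trans ((List.mem_inits _ _).1 hx).isInfix

theorem full_comp (ch : ℕ → List (Fin 8)) : Comp ch full := fun q hq j hj _ => full_bit q hq j hj

theorem maskAt_eq {p c : ℕ} {l : List (Fin 8)} (h : (cand p)[c]? = some l) :
    maskAt p c = maskOf l := by
  unfold maskAt cand at *
  rw [maskT_eq]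
  simp only [List.getD_eq_getElem?_getD, List.getElem?_map] at *
  cases h1 : cands[p]? with
  | none => simp [h1] at h
  | some L =>
    rw [h1] at h
    simp only [Option.getD_some] at h
    simp [h]

theorem mask_comp (hP : Consistent P) {p c : ℕ} (h : (cand p)[c]? = some (chs P p)) :
    Comp (chs P) (maskAt p c) := by
  rw [maskAt_eq h]
  exact fold_comp (p := p) hP _ _ (fun m hm => segs_sub hm) (full_comp _)

theorem exists_choice (P : PathSystem G8) {q : ℕ} (hq : q < 28) :
    ∃ j < 4, (cand q)[j]? = some (chs P q) := by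
  have h1 : chs P q ∈ cand q := by
    have := complete (P.isPath (pr q).1 (pr q).2) (pr_lt q hq).1
    rw [(pr_lt q hq).2] at this
    exact this
  obtain ⟨j, hj, h2⟩ := List.getElem_of_mem h1
  exact ⟨j, lt_of_lt_of_le hj (cand_len q hq).1, by rw [List.getElem?_eq_getElem hj, h2]⟩

theorem not_contra {s : ℕ} (h : Comp (chs P) s) : contra s = false := by
  rw [Bool.eq_false_iff]
  intro hc
  unfold contra at hc
  rw [List.any_eq_true] at hc
  obtain ⟨q, hq, h0⟩ := hc
  rw [List.mem_range] at hq
  obtain ⟨j, hj, hj'⟩ := exists_choice P hq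
  have h1 := h q hq j hj hj'
  have h2 : (s >>> (4 * q)) % 16 = 0 := by simpa using h0
  have h3 : ((s >>> (4 * q)) % 2 ^ 4).testBit j = true := by
    rw [Nat.testBit_mod_two_pow, Nat.testBit_shiftRight, h1]
    simp [hj]
  rw [show (2 : ℕ) ^ 4 = 16 from rfl, h2] at h3
  simp at h3

theorem run_sound (hP : Consistent P) : ∀ (t : Cert) (s : ℕ), run t s = true → Comp (chs P) s →
    ∃ N s', Comp (chs P) s' ∧ chk N s' = true
  | .bad, s, h, hs => by
    rw [run, not_contra hs] at h
    exact absurd h (by simp)
  | .leaf N, s, h, hs => ⟨N, s, hs, h⟩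
  | .node p c0 c1 c2 c3, s, h, hs => by
    rw [run] at h
    simp only [Bool.and_eq_true, decide_eq_true_eq] at h
    obtain ⟨⟨⟨⟨hp, h0⟩, h1⟩, h2⟩, h3⟩ := h
    obtain ⟨j, hj, hj'⟩ := exists_choice P hp
    have hm := hs.and (mask_comp hP hj')
    interval_cases j
    · exact run_sound hP c0 _ h0 hm
    · exact run_sound hP c1 _ h1 hm
    · exact run_sound hP c2 _ h2 hm
    · exact run_sound hP c3 _ h3 hm

/-- edge weights -/
noncomputable def wt (N : ℕ) : Sym2 (Fin 8) → ℝ :=
  Sym2.lift ⟨fun x y => (((N >>> esh x y) % 64 : ℕ) : ℝ), fun x y => by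
    show (((N >>> esh x y) % 64 : ℕ) : ℝ) = (((N >>> esh y x) % 64 : ℕ) : ℝ)
    rw [esh_symm]⟩

theorem tot_acc (N : ℕ) : ∀ (l : List ℕ) (a : ℕ),
    l.foldl (fun a sh => a + (N >>> sh) % 64) a = a + tot N l
  | [], a => by simp [tot]
  | x :: l, a => by
    unfold tot
    rw [List.foldl_cons, List.foldl_cons, tot_acc N l, tot_acc N l]
    omega

theorem weight_wt (N : ℕ) : ∀ l : List (Fin 8), weight (wt N) l = (tot N (shifts l) : ℝ)
  | [] => by simp [weight, shifts, tot]
  | [_] => by simp [weight, shifts, tot]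
  | x :: y :: l => by
    rw [weight, weight_wt N (y :: l)]
    have : tot N (shifts (x :: y :: l)) = (N >>> esh x y) % 64 + tot N (shifts (y :: l)) := by
      rw [shifts]
      unfold tot
      rw [List.foldl_cons, tot_acc]
      simp [tot]
    rw [this]
    push_cast
    rfl

theorem weight_append (w : Sym2 (Fin 8) → ℝ) (x y : Fin 8) : ∀ l : List (Fin 8),
    weight w (l ++ [x, y]) = weight w (l ++ [x]) + w s(x, y)
  | [] => by simp [weight]
  | [a] => by simp [weight]
  | a :: b :: l => by
    have := weight_append w x y (b :: l)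
    simp only [List.cons_append, weight] at this ⊢
    rw [this]; ring

theorem weight_reverse (w : Sym2 (Fin 8) → ℝ) : ∀ l : List (Fin 8),
    weight w l.reverse = weight w l
  | [] => rfl
  | [_] => rfl
  | x :: y :: l => by
    have h1 := weight_reverse w (y :: l)
    rw [List.reverse_cons] at h1
    rw [List.reverse_cons, List.reverse_cons, List.append_assoc]
    show weight w (l.reverse ++ [y, x]) = _
    rw [weight_append, h1, weight, Sym2.eq_swap]
    ring

theorem csh_eq' (q : ℕ) : csh.getD q [] = (cand q).map shifts := by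
  unfold cand
  rw [csh_eq]
  simp only [List.getD_eq_getElem?_getD, List.getElem?_map]
  cases cands[q]? <;> simp

theorem chk_min {N s : ℕ} (hk : chk N s = true) (hs : Comp (chs P) s) {q : ℕ} (hq : q < 28)
    {l : List (Fin 8)} (hl : l ∈ cand q) : weight (wt N) (chs P q) ≤ weight (wt N) l := by
  obtain ⟨j, hj, hj'⟩ := exists_choice P hq
  have h1 := hs q hq j hj hj'
  unfold chk at hk
  rw [Bool.and_eq_true] at hk
  have h2 := List.all_eq_true.1 hk.2 q (List.mem_range.2 hq)
  have h3 := List.all_eq_true.1 h2 j (List.mem_range.2 hj)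
  rw [h1] at h3
  simp only [Bool.not_true, Bool.false_or] at h3
  rw [csh_eq'] at h3
  have h4 := List.all_eq_true.1 h3 (tot N (shifts l)) (by
    rw [List.mem_map]
    exact ⟨shifts l, List.mem_map_of_mem hl, rfl⟩)
  have h5 : (((cand q).map shifts).map (tot N)).getD j 0 = tot N (shifts (chs P q)) := by
    rw [List.getD_eq_getElem?_getD, List.getElem?_map, List.getElem?_map, hj']
    rfl
  rw [h5] at h4
  have h6 : tot N (shifts (chs P q)) ≤ tot N (shifts l) := by simpa using h4
  rw [weight_wt, weight_wt]
  exact_mod_cast h6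

theorem chk_pos {N s : ℕ} (hk : chk N s = true) {i : ℕ} (hi : i < 9) :
    0 < (N >>> (6 * i)) % 64 := by
  unfold chk at hk
  rw [Bool.and_eq_true] at hk
  have h2 := List.all_eq_true.1 hk.1 i (List.mem_range.2 hi)
  simpa [Nat.one_le_iff_ne_zero, Nat.pos_iff_ne_zero] using h2

theorem single {u : Fin 8} {l : List (Fin 8)} (h : IsPathFrom G8 u u l) : l = [u] := by
  obtain ⟨-, hn, h1, h2⟩ := h
  match l, hn, h1, h2 with
  | [x], _, h1, _ => simpa using h1
  | x :: y :: l, hn, h1, h2 =>
    exfalso
    have hx : x = u := by simpa using h1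
    subst hx
    have h3 : (y :: l).getLast? = some x := by
      rw [List.getLast?_cons_cons] at h2
      exact h2
    exact (List.nodup_cons.1 hn).1 (List.mem_of_getLast? h3)

/-- The graph given by the table is metrizable. -/
theorem metrizable_G8 : Metrizable G8 := by
  intro P hP
  obtain ⟨N, s, hs, hk⟩ := run_sound hP tree full tree_ok (full_comp _)
  refine ⟨wt N, ?_, ?_⟩
  · intro e he
    induction e using Sym2.ind with
    | _ x y =>
      have hxy : y ∈ nbr x := he
      obtain ⟨i, hi, h1⟩ := esh_edge x y hxy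
      show (0 : ℝ) < (((N >>> esh x y) % 64 : ℕ) : ℝ)
      rw [h1]
      exact_mod_cast chk_pos hk hi
  · intro u v l hl
    rcases lt_trichotomy u v with huv | huv | huv
    · have h1 := ix_ok u v huv
      have h2 := chk_min hk hs h1.1 (complete hl huv)
      unfold chs at h2
      rw [h1.2] at h2
      exact h2
    · subst huv
      rw [single hl, single (P.isPath u u)]
    · have h1 := ix_ok v u huv
      have h2 := chk_min hk hs h1.1 (complete (rev_path hl) huv)
      unfold chs at h2
      rw [h1.2] at h2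
      have h3 : P.path v u = (P.path u v).reverse := P.symm u v
      change weight (wt N) (P.path v u) ≤ _ at h2
      rw [h3, weight_reverse, weight_reverse] at h2
      exact h2

end Pool.Agent.V8H16.Theta
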