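import Pool.Agent.V8H16.Theta.Data

set_option autoImplicit false
set_option maxRecDepth 100000

namespace Pool.Agent.V8H16.Theta

/-- the number of the pair -/
def ix (a b : Fin 8) : ℕ := prs.idxOf (a, b)

def pr (q : ℕ) : Fin 8 × Fin 8 := prs.getD q (0, 0)

def cand (q : ℕ) : List (List (Fin 8)) := cands.getD q []

def maskAt (p c : ℕ) : ℕ := (maskT.getD p []).getD c 0

def full : ℕ := 2 ^ 112 - 1

def restr (q j : ℕ) : ℕ := full - ((15 - 2 ^ j) * 2 ^ (4 * q))

theorem restr_bit : ∀ q < 28, ∀ j < 4, ∀ q' < 28, ∀ j' < 4,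
    (restr q j).testBit (4 * q' + j') = (decide (q' ≠ q) || decide (j' = j)) := by
  decide +kernel

theorem full_bit : ∀ q < 28, ∀ j < 4, full.testBit (4 * q + j) = true := by
  decide +kernel

def upd (s q : ℕ) (m : List (Fin 8)) : ℕ := s &&& restr q ((cand q).idxOf m)

def step (s : ℕ) (m : List (Fin 8)) : ℕ :=
  match m.head?, m.getLast? with
  | some a, some b => if a < b then upd s (ix a b) m else
      if b < a then upd s (ix b a) m.reverse else s
  | _, _ => s

def segs (l : List (Fin 8)) : List (List (Fin 8)) := l.inits.flatMap List.tails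

def maskOf (l : List (Fin 8)) : ℕ := (segs l).foldl step full

theorem maskT_eq : maskT = cands.map fun c => c.map maskOf := by decide +kernel

/-- edge numbers of a path -/
def shifts : List (Fin 8) → List ℕ
  | [] => []
  | [_] => []
  | x :: y :: l => esh x y :: shifts (y :: l)

theorem csh_eq : csh = cands.map fun c => c.map shifts := by decide +kernel

/-- total weight -/
def tot (N : ℕ) (l : List ℕ) : ℕ := l.foldl (fun a sh => a + (N >>> sh) % 64) 0

def chk (N s : ℕ) : Bool :=
  (List.range 9).all (fun i => 1 ≤ (N >>> (6 * i)) % 64) &&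
  (List.range 28).all fun q =>
    let ls := (csh.getD q []).map (tot N)
    (List.range 4).all fun k => ! s.testBit (4 * q + k) ||
      ls.all fun x => ls.getD k 0 ≤ x

inductive Cert
  | bad : Cert
  | leaf (N : ℕ) : Cert
  | node (p : ℕ) (c0 c1 c2 c3 : Cert) : Cert

def contra (s : ℕ) : Bool := (List.range 28).any fun q => (s >>> (4 * q)) % 16 == 0

def run : Cert → ℕ → Bool
  | .bad, s => contra s
  | .leaf N, s => chk N s
  | .node p c0 c1 c2 c3, s => decide (p < 28) &&
      run c0 (s &&& maskAt p 0) && run c1 (s &&& maskAt p 1) && run c2 (s &&& maskAt p 2) &&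
      (run c3 (s &&& maskAt p 3))

end Pool.Agent.V8H16.Theta
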