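import Mathlib

set_option autoImplicit false

/-!
# Path systems and metrizable graphs

Paths are given by the lists of their vertices.
-/

namespace Pool.Agent.V8H16.Theta

variable {V : Type}

/-- `l` is the list of the vertices of a (simple) path of `G` from `u` to `v`. -/
def IsPathFrom (G : SimpleGraph V) (u v : V) (l : List V) : Prop :=
  l.IsChain G.Adj ∧ l.Nodup ∧ l.head? = some u ∧ l.getLast? = some v

/-- A path system of `G`: for every pair `{u, v}` of vertices one path with the ends `u` and `v`.
The path is given as the list of its vertices from `u` to `v`; the list from `v` to `u` is the
reverse list. -/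
structure PathSystem (G : SimpleGraph V) where
  /-- the chosen path from `u` to `v` -/
  path : V → V → List V
  isPath : ∀ u v, IsPathFrom G u v (path u v)
  symm : ∀ u v, path v u = (path u v).reverse

/-- The path system is consistent: every subpath (contiguous sublist `l`) of a chosen path is the
chosen path between its ends. -/
def Consistent {G : SimpleGraph V} (P : PathSystem G) : Prop :=
  ∀ u v x y l, l <:+: P.path u v → IsPathFrom G x y l → l = P.path x y

/-- The weight of the path with vertex list `l`: the sum of the weights of its edges. -/
def weight (w : Sym2 V → ℝ) : List V → ℝ
  | [] => 0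
  | [_] => 0
  | x :: y :: l => w s(x, y) + weight w (y :: l)

/-- The edge weights `w` induce the path system: every chosen path has minimum weight among the
paths with the same ends (ties are allowed). -/
def Induces {G : SimpleGraph V} (w : Sym2 V → ℝ) (P : PathSystem G) : Prop :=
  ∀ u v l, IsPathFrom G u v l → weight w (P.path u v) ≤ weight w l

/-- `G` is metrizable: every consistent path system of `G` is induced by positive edge weights. -/
def Metrizable (G : SimpleGraph V) : Prop :=
  ∀ P : PathSystem G, Consistent P →
    ∃ w : Sym2 V → ℝ, (∀ e ∈ G.edgeSet, 0 < w e) ∧ Induces w P

end Pool.Agent.V8H16.Theta
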