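import Pool.Agent.V8H16.Theta.Defs

set_option autoImplicit false

namespace Pool.Agent.V8H16.Theta

/-! ## All paths of a graph on `Fin 8` given by a table of neighbours -/

/-- neighbours in `Θ_{3,3,3}` -/
def nbr : Fin 8 → List (Fin 8) :=
  ![[2, 4, 6], [3, 5, 7], [0, 3], [2, 1], [0, 5], [4, 1], [0, 7], [6, 1]]

/-- all paths with `k + 1` vertices, ending at the head of the list -/
def pths : ℕ → List (List (Fin 8))
  | 0 => (List.finRange 8).map fun x => [x]
  | k + 1 => (pths k).flatMap fun l =>
      match l with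
      | [] => []
      | x :: l' => ((nbr x).filter fun y => ! (x :: l').elem y).map fun y => y :: x :: l'

/-- The graph given by the table. -/
def G8 : SimpleGraph (Fin 8) where
  Adj a b := b ∈ nbr a
  symm := ⟨by decide⟩
  loopless := ⟨by decide⟩

instance : DecidableRel G8.Adj := fun a b => inferInstanceAs (Decidable (b ∈ nbr a))

theorem mem_pths : ∀ (l : List (Fin 8)), l.IsChain G8.Adj → l.Nodup → l ≠ [] →
    l ∈ pths (l.length - 1)
  | [], _, _, h => absurd rfl h
  | [x], _, _, _ => by simp [pths]
  | x :: y :: l, hc, hn, _ => by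
    have h1 : (y :: l).IsChain G8.Adj := (List.isChain_cons_cons.1 hc).2
    have h2 : G8.Adj x y := (List.isChain_cons_cons.1 hc).1
    have ih := mem_pths (y :: l) h1 (List.nodup_cons.1 hn).2 (by simp)
    have e : (x :: y :: l).length - 1 = (y :: l).length - 1 + 1 := by simp
    rw [e, pths, List.mem_flatMap]
    refine ⟨y :: l, ih, ?_⟩
    simp only [List.mem_map, List.mem_filter]
    refine ⟨x, ⟨h2.symm, ?_⟩, rfl⟩
    have := (List.nodup_cons.1 hn).1
    simpa [List.elem_eq_mem] using this

end Pool.Agent.V8H16.Theta
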