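import Pool.Agent.V8H16.Theta.Check

set_option autoImplicit false
set_option maxRecDepth 100000

namespace Pool.Agent.V8H16.Theta

/-- weights for all consistent path systems -/
def tree : Cert :=
  (.node 14 (.node 19 (.node 16 (.node 20 (.leaf 286217711407169) .bad .bad (.leaf
  286217711398977)) (.node 24 (.node 25 .bad (.node 20 .bad (.node 26 (.node 27 (.leaf
  303539314495553) .bad (.node 11 (.leaf 294743221473345) .bad (.leaf 290413894438977) .bad)
  .bad) .bad .bad (.node 27 (.leaf 303537167011905) .bad (.node 11 (.leaf 294741073989697) .bad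
  (.leaf 290411746955329) .bad) .bad)) .bad (.node 26 (.leaf 286084567404609) .bad .bad (.leaf
  286082419920961))) .bad (.node 20 .bad (.node 23 .bad (.leaf 290480483213377) .bad .bad) .bad
  (.node 23 .bad (.leaf 286082419920961) .bad .bad))) (.node 17 .bad (.node 20 .bad (.node 25
  .bad (.node 21 .bad (.node 26 .bad (.node 8 (.node 10 (.node 12 (.leaf 1411847035293761) .bad
  (.node 11 (.leaf 848897081872449) .bad (.leaf 848897081872449) .bad) .bad) (.node 12 (.node 9
  (.leaf 1411844887810113) (.leaf 1411844887810113) .bad .bad) (.node 7 (.leaf 1411842740334657)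
  (.leaf 1411842740334657) .bad .bad) (.node 7 (.node 9 (.node 11 (.leaf 848894934388801) .bad
  (.leaf 848894934388801) .bad) (.node 11 (.leaf 848894934388801) (.leaf 848892786913345) (.leaf
  567418883940417) .bad) (.leaf 285944980975681) .bad) (.node 11 .bad (.leaf 848892786913345)
  (.leaf 848892786913345) .bad) (.node 9 .bad (.leaf 285944980975681) (.leaf 285944980975681)
  .bad) .bad) .bad) (.node 7 (.leaf 285947128459329) .bad (.leaf 285947128459329) .bad) .bad)
  (.node 12 .bad (.leaf 1411842740342849) (.node 11 .bad (.leaf 848892786921537) (.leaf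
  848892786921537) .bad) .bad) (.node 10 .bad (.node 9 .bad (.leaf 285944980983873) (.leaf
  285944980983873) .bad) (.leaf 285947128467521) .bad) .bad) .bad (.node 8 (.node 7 (.node 9
  (.node 11 (.leaf 853292997681217) .bad (.leaf 567419974459457) .bad) (.node 11 (.leaf
  853291907162177) (.leaf 571815856713793) (.leaf 567418883940417) .bad) (.leaf 285944980975681)
  .bad) (.node 11 .bad (.leaf 571815856713793) (.leaf 285942833492033) .bad) (.node 9 .bad
  (.leaf 285942833492033) (.leaf 285944980975681) .bad) .bad) (.node 11 .bad (.leaf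
  571815856721985) (.leaf 285942833500225) .bad) (.node 9 .bad (.leaf 285942833500225) (.leaf
  285943924019265) .bad) .bad)) .bad (.node 10 (.node 26 .bad (.node 11 (.leaf 571820151672897)
  .bad (.leaf 285947128451137) .bad) .bad .bad) (.node 26 .bad (.node 7 (.node 9 (.node 11
  (.leaf 571818004189249) .bad (.leaf 285944980967489) .bad) (.node 11 (.leaf 571818004189249)
  (.leaf 853291907162177) (.leaf 567418883940417) .bad) (.leaf 285944980967489) .bad) (.node 11
  .bad (.leaf 853291907166337) (.leaf 567418883944577) .bad) (.node 9 .bad (.leaf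
  285944980975681) (.leaf 285944980975681) .bad) .bad) .bad (.node 7 (.node 9 (.node 11 (.leaf
  571818004189249) .bad (.leaf 285944980967489) .bad) (.node 11 (.leaf 571818004189249) (.leaf
  571815856713793) (.leaf 286012626706497) .bad) (.leaf 285944980967489) .bad) (.node 11 .bad
  (.leaf 571815856713793) (.leaf 285942833492033) .bad) (.node 9 .bad (.leaf 285942833492033)
  (.leaf 285944980975681) .bad) .bad)) (.node 7 (.leaf 285947128451137) .bad (.leaf
  285947128455297) .bad) .bad)) .bad (.node 8 (.node 21 .bad (.node 7 (.node 9 (.leaf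
  567488710717505) (.leaf 567487603683393) (.leaf 285943924011073) .bad) (.leaf 285942833492033)
  (.node 9 .bad (.leaf 285942833492033) (.leaf 285943924011073) .bad) .bad) .bad (.node 7 (.node
  9 (.leaf 286013717225537) (.leaf 286012626706497) (.leaf 285943924011073) .bad) (.leaf
  285942833492033) (.node 9 .bad (.leaf 285942833492033) (.leaf 285943924011073) .bad) .bad))
  (.node 21 .bad (.leaf 285942833500225) .bad .bad) (.node 9 .bad (.leaf 285942833500225) (.leaf
  285942867054657) .bad) .bad)) .bad (.node 25 .bad (.node 10 (.node 26 .bad (.leaf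
  285947128451137) .bad .bad) (.node 26 .bad (.node 7 (.node 9 (.leaf 285944980967489) (.leaf
  567488677158978) (.leaf 285944980967489) .bad) (.leaf 567488677163201) (.node 9 .bad (.leaf
  285944980971649) (.leaf 285944980971649) .bad) .bad) .bad (.node 7 (.node 9 (.leaf
  285944980967489) (.leaf 286012626706497) (.leaf 285944980967489) .bad) (.leaf 286012626710657)
  (.node 9 .bad (.leaf 285944980971649) (.leaf 285944980971649) .bad) .bad)) (.node 7 (.leaf
  285947128451137) .bad (.leaf 285947128451265) .bad) .bad) .bad (.node 7 (.node 9 (.leaf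
  286013717225537) (.leaf 286012626706497) (.leaf 286013717225537) .bad) (.leaf 286012626710657)
  (.node 9 .bad (.leaf 286012626710657) (.leaf 286013717229697) .bad) .bad))) .bad (.node 25
  .bad (.node 20 .bad (.node 10 (.node 26 .bad (.node 11 (.leaf 294743221473345) .bad (.leaf
  285947128451137) .bad) .bad .bad) (.node 9 (.node 26 .bad (.node 11 (.leaf 571818004189249)
  .bad (.leaf 285944980967489) .bad) .bad (.node 11 (.leaf 294741073989697) .bad (.leaf
  285944980967489) .bad)) (.node 26 .bad (.node 11 (.leaf 571818004189249) (.leaf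
  857691027415106) (.leaf 567488677158978) .bad) .bad (.node 11 (.leaf 294741073989697) (.leaf
  576214976962625) (.leaf 286012626706497) .bad)) (.node 26 .bad (.leaf 285944980967489) .bad
  (.leaf 285944980967489)) .bad) (.leaf 285947128451137) .bad) .bad (.node 10 (.node 26 .bad
  (.leaf 285947128451137) .bad .bad) (.node 26 .bad (.node 9 (.leaf 285944980967489) (.leaf
  567488677158978) (.leaf 285944980967489) .bad) .bad (.node 9 (.leaf 285944980967489) (.leaf
  286012626706497) (.leaf 285944980967489) .bad)) (.leaf 285947128451137) .bad)) .bad (.node 20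
  .bad (.node 9 (.leaf 286013717225537) (.leaf 286012626706497) (.leaf 286013717225537) .bad)
  .bad (.node 9 (.leaf 286082419920961) (.leaf 286012626706497) (.leaf 286013717225537) .bad))))
  .bad (.node 20 .bad (.node 17 (.node 23 .bad (.node 25 .bad (.node 21 (.node 27 .bad (.leaf
  303535019544641) (.node 11 .bad (.leaf 294738926522433) (.leaf 290409599488065) .bad) .bad)
  .bad .bad (.node 27 .bad (.leaf 303535019536449) (.node 11 .bad (.leaf 294738926514241) (.leaf
  290409599479873) .bad) .bad)) .bad (.node 21 (.leaf 286080272453697) .bad .bad (.leaf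
  286080272445505))) .bad (.node 21 (.leaf 286080272453697) .bad .bad (.leaf 286080272445505)))
  (.node 23 .bad (.node 25 .bad (.node 8 (.node 7 (.node 21 .bad (.node 11 (.leaf
  857689953939521) (.leaf 571815856713793) (.leaf 567487603683393) .bad) .bad (.node 11 (.leaf
  576214976962625) (.leaf 294738926514241) (.leaf 286012626706497) .bad)) (.node 21 .bad (.node
  11 .bad (.leaf 571815856713793) (.leaf 285942833492033) .bad) .bad (.node 11 .bad (.leaf
  294738926514241) (.leaf 285942833492033) .bad)) (.node 21 .bad (.leaf 285942833492033) .bad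
  (.leaf 285942833492033)) .bad) (.node 21 .bad (.node 11 .bad (.leaf 294738926522433) (.leaf
  285942833500225) .bad) .bad .bad) (.leaf 285942833500225) .bad) .bad (.node 8 (.node 21 .bad
  (.node 7 (.leaf 567487603683393) (.leaf 285942833492033) (.leaf 285942833492033) .bad) .bad
  (.node 7 (.leaf 286012626706497) (.leaf 285942833492033) (.leaf 285942833492033) .bad)) (.node
  21 .bad (.leaf 285942833500225) .bad .bad) (.leaf 285942833500225) .bad)) .bad (.node 8 (.node
  21 .bad (.node 7 (.leaf 567556323426369) (.leaf 286011553235009) (.leaf 286011553235009) .bad)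
  .bad (.node 7 (.leaf 286081346449473) (.leaf 286080272445505) (.leaf 286011553235009) .bad))
  (.node 21 .bad (.leaf 286080272453697) .bad .bad) (.leaf 285942834024513) .bad)) .bad (.node
  27 (.node 23 .bad (.node 25 .bad (.leaf 303537167011905) .bad .bad) .bad .bad) (.leaf
  303535019536449) (.node 23 .bad (.node 25 .bad (.node 0 (.leaf 299138046763073) (.leaf
  299138046763073) (.leaf 286012626706497) .bad) .bad (.node 6 (.leaf 290479392694337) (.leaf
  286080272445505) (.leaf 286012626706497) .bad)) .bad (.node 6 (.leaf 290548112437313) (.leaf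
  286080272445505) (.leaf 286081346449473) .bad)) .bad)) .bad (.node 17 (.node 23 .bad (.node 25
  .bad (.leaf 290479392698497) .bad (.leaf 286080272445505)) .bad (.leaf 286080272445505))
  (.node 23 .bad (.node 25 .bad (.node 7 (.leaf 286012626706497) (.leaf 286012626710657) (.leaf
  286012626710657) .bad) .bad (.node 7 (.leaf 286012626706497) (.leaf 286080272445505) (.leaf
  286012626710657) .bad)) .bad (.node 7 (.leaf 286081346449473) (.leaf 286080272445505) (.leaf
  286081346453633) .bad)) .bad (.node 23 .bad (.node 25 .bad (.node 6 (.leaf 286082419920961)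
  (.leaf 290479392694337) (.leaf 286012626706497) .bad) .bad (.node 6 (.leaf 286082419920961)
  (.leaf 286080272445505) (.leaf 286012626706497) .bad)) .bad (.node 6 (.leaf 286150065659969)
  (.leaf 286080272445505) (.leaf 286081346449473) .bad))))) .bad (.node 24 (.node 25 (.leaf
  286222006358081) (.node 26 (.leaf 286084567404609) .bad .bad (.leaf 286082419920961)) .bad
  (.node 23 (.leaf 286219858874433) (.leaf 286082419920961) .bad .bad)) (.node 10 (.node 25 .bad
  (.node 26 .bad (.leaf 286084567404609) .bad .bad) .bad .bad) (.node 25 .bad (.node 26 .bad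
  (.node 9 (.leaf 286014774186050) (.leaf 567558470377539) (.leaf 286014774186050) .bad) .bad
  (.node 9 (.leaf 286082419920961) (.leaf 286082419925058) (.leaf 286014774186050) .bad)) .bad
  (.node 9 (.leaf 286082419920961) (.leaf 286082419925058) (.leaf 286083510444098) .bad)) (.leaf
  285947128451139) .bad) .bad (.node 5 (.node 23 .bad .bad .bad (.leaf 286219858874433)) (.leaf
  286217711398977) (.node 23 .bad (.node 25 .bad (.node 6 (.leaf 286082419920961) (.leaf
  290549185912898) (.leaf 286082419925058) .bad) .bad (.node 6 (.leaf 286082419920961) (.leaf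
  286150065659969) (.leaf 286082419925058) .bad)) .bad (.node 6 (.leaf 286150065659969) (.leaf
  286150065659969) (.leaf 286151139668034) .bad)) .bad))) (.node 18 (.node 23 .bad (.node 24
  .bad (.node 22 .bad (.leaf 285942900609089) (.node 9 .bad (.leaf 285942850539585) (.leaf
  285942867054657) .bad) .bad) .bad (.leaf 285942834024513)) .bad (.leaf 285942834024513)) .bad
  .bad .bad) (.node 16 (.node 18 (.node 20 .bad .bad .bad (.leaf 286217711394945)) .bad (.node
  20 .bad .bad .bad (.node 13 (.leaf 286217711391041) .bad (.node 2 (.leaf 286217711390913)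
  (.leaf 286217711390913) .bad .bad) .bad)) .bad) (.node 21 .bad (.node 23 .bad (.node 15 (.node
  24 .bad (.node 25 .bad (.node 18 (.node 12 (.node 26 .bad (.node 9 (.leaf 1411843830845505)
  (.leaf 1411842740326465) .bad .bad) .bad .bad) (.node 7 (.leaf 1411842740326465) (.leaf
  1411842740330625) .bad .bad) (.node 26 .bad (.node 7 (.node 9 (.node 11 (.leaf
  848893877424193) .bad (.leaf 848893877424193) .bad) (.node 11 (.leaf 848892786905153) (.leaf
  848892786905153) (.leaf 567418883940417) .bad) (.leaf 567419974459457) .bad) (.node 11 .bad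
  (.leaf 848892786913345) (.leaf 848892786913345) .bad) (.node 9 .bad (.leaf 567418883944577)
  (.leaf 567419974463617) .bad) .bad) .bad (.node 7 (.node 9 (.node 11 (.leaf 848893877424193)
  .bad (.leaf 848893877424193) .bad) (.node 11 (.leaf 848892786905153) (.leaf 848892786905153)
  (.leaf 567417810460737) .bad) (.leaf 285943924011073) .bad) (.node 11 .bad (.leaf
  848892786913345) (.leaf 285942833492033) .bad) (.node 9 .bad (.leaf 285942833492033) (.leaf
  285943924011073) .bad) .bad)) .bad) .bad (.node 12 (.node 26 .bad (.leaf 1411842740326465)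
  .bad .bad) (.node 7 (.leaf 1411842740326465) (.leaf 1411842740326593) .bad .bad) (.node 26
  .bad (.node 7 (.node 11 (.leaf 848892786905153) (.leaf 848892786905153) (.leaf
  848893860913218) .bad) (.node 11 .bad (.leaf 848892786909313) (.leaf 848892786909313) .bad)
  (.leaf 848893860917441) .bad) .bad (.node 7 (.node 11 (.leaf 848892786905153) (.leaf
  848892786905153) (.leaf 567417810460737) .bad) (.node 11 .bad (.leaf 848892786909313) (.leaf
  848892786909313) .bad) (.leaf 567417810464897) .bad)) .bad) .bad) .bad (.node 18 (.node 7
  (.node 9 (.leaf 567418917494849) (.leaf 567417810460737) (.leaf 285942867046465) .bad) (.leaf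
  285942833492033) (.node 9 .bad (.leaf 285942833492033) (.leaf 285942867046465) .bad) .bad)
  .bad (.node 7 (.leaf 567417810460737) (.leaf 567417810464897) (.leaf 567417810464897) .bad)
  .bad)) .bad (.node 25 .bad (.node 18 (.node 7 (.node 11 (.leaf 853290833682497) (.leaf
  571815856713793) (.leaf 567417810460737) .bad) (.node 11 .bad (.leaf 571815856713793) (.leaf
  285942833492033) .bad) (.leaf 285942833492033) .bad) .bad (.node 7 (.node 11 (.leaf
  853290833682497) (.leaf 853290833682497) (.leaf 567417810460737) .bad) (.node 11 .bad (.leaf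
  853290833686657) (.leaf 567417810464897) .bad) (.leaf 567417810464897) .bad) .bad) .bad (.node
  18 (.node 7 (.leaf 567417810460737) (.leaf 285942833492033) (.leaf 285942833492033) .bad) .bad
  (.node 7 (.leaf 567417810460737) (.leaf 567417810464897) (.leaf 285942834016321) .bad) .bad)))
  (.node 18 (.node 24 .bad (.node 22 .bad (.leaf 285942900600897) (.node 9 .bad (.leaf
  285942850531393) (.leaf 285942867046465) .bad) .bad) .bad (.leaf 285942834016321)) .bad (.node
  24 .bad (.leaf 567417827504257) .bad (.leaf 285942834016321)) .bad) (.node 24 .bad (.node 25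
  .bad (.node 18 (.node 12 (.node 26 .bad (.node 9 (.leaf 1411842773880897) (.leaf
  1411842740326465) .bad .bad) .bad .bad) (.leaf 1411842740326465) (.node 9 (.node 26 .bad
  (.node 11 (.leaf 848893877424193) .bad (.leaf 848893877424193) .bad) .bad (.node 11 (.leaf
  848892820459585) .bad (.leaf 848892820459585) .bad)) (.node 26 .bad (.node 11 (.leaf
  848892786905153) (.leaf 848892786905153) (.leaf 848893860913218) .bad) .bad (.node 11 (.leaf
  848892786905153) (.leaf 848892786905153) (.leaf 567417810460737) .bad)) (.node 26 .bad (.leaf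
  848894967947330) .bad (.leaf 567418917494849)) .bad) .bad) .bad (.node 12 (.node 26 .bad
  (.leaf 1411842740326465) .bad .bad) (.leaf 1411842740326465) (.node 26 .bad (.node 11 (.leaf
  848892786905153) (.leaf 848892786905153) (.leaf 848893860913218) .bad) .bad (.node 11 (.leaf
  848892786905153) (.leaf 848892786905153) (.leaf 567417810460737) .bad)) .bad) .bad) (.node 18
  (.node 26 .bad .bad (.node 22 (.leaf 1411842807435329) .bad (.node 9 (.leaf 1411842773880897)
  (.leaf 1411842757365825) .bad .bad) .bad) (.node 22 (.leaf 848892854014017) .bad (.node 9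
  (.leaf 848892820459585) (.leaf 848892803944513) .bad .bad) .bad)) .bad (.node 26 .bad .bad
  (.leaf 1411842740850753) (.leaf 848892787429441)) .bad) (.node 22 (.leaf 848892854014017)
  (.node 18 (.leaf 285942900600897) .bad .bad .bad) (.node 18 (.node 0 (.leaf 567417860530241)
  (.leaf 567417810460737) (.leaf 567417860530241) .bad) .bad (.node 4 (.leaf 848892787429441)
  (.leaf 567417810460737) (.leaf 567417827500097) .bad) .bad) .bad)) .bad (.node 25 .bad (.node
  18 (.node 11 (.leaf 853290833682497) (.leaf 853290833682497) (.leaf 567417810460737) .bad)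
  .bad (.node 11 (.leaf 848892787429441) (.leaf 853290833682497) (.leaf 567417810460737) .bad)
  .bad) (.node 18 (.leaf 853290850721857) .bad (.leaf 848892787429441) .bad) (.node 18 (.node 4
  (.leaf 567417827500097) (.leaf 567417810460737) (.leaf 285942834016321) .bad) .bad (.node 4
  (.leaf 848892787429441) (.leaf 567417810460737) (.leaf 285942834016321) .bad) .bad))) .bad)
  .bad (.node 15 (.node 18 (.node 7 (.leaf 567486530203713) (.leaf 286011553235009) (.leaf
  285942834016321) .bad) .bad (.node 7 (.leaf 567486530203713) (.leaf 567486530207873) (.leaf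
  285942834016321) .bad) .bad) (.node 18 (.leaf 285942834016321) .bad (.leaf 285942834016321)
  .bad) (.node 18 (.node 4 (.leaf 567486547243073) (.leaf 567486530203713) (.leaf
  285942834016321) .bad) .bad (.node 4 (.leaf 567417810985025) (.leaf 567486530203713) (.leaf
  285942834016321) .bad) .bad) .bad)) (.node 15 (.node 17 .bad (.node 13 (.leaf
  1411842740326721) .bad (.node 7 (.leaf 1411842740326530) (.leaf 1411842740326593) .bad .bad)
  .bad) .bad .bad) .bad (.node 17 .bad (.leaf 1411842740326467) .bad .bad) .bad) (.node 23 .bad
  (.node 26 .bad (.node 18 (.node 15 (.node 17 .bad (.node 20 .bad (.node 7 (.node 9 (.node 11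
  (.leaf 571818004189249) .bad (.leaf 285944980967489) .bad) (.node 11 (.leaf 848892786905153)
  (.leaf 848892786905153) (.leaf 567418883936322) .bad) (.leaf 285944980967489) .bad) (.node 11
  .bad (.leaf 848892786909313) (.leaf 848892786909313) .bad) (.node 9 .bad (.leaf
  285944980971649) (.leaf 285944980971649) .bad) .bad) .bad (.node 7 (.node 9 (.leaf
  285944980967489) (.leaf 567418883936322) (.leaf 285944980967489) .bad) (.leaf 567418883940545)
  (.node 9 .bad (.leaf 285944980967617) (.leaf 285944980967617) .bad) .bad)) .bad (.node 20 .bad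
  (.node 9 (.node 11 (.leaf 571818004189249) .bad (.leaf 285944980967489) .bad) (.node 11 (.leaf
  571818004189249) (.leaf 853291907158082) (.leaf 567418883936322) .bad) (.leaf 285944980967489)
  .bad) .bad (.node 9 (.leaf 285944980967489) (.leaf 567418883936322) (.leaf 285944980967489)
  .bad))) .bad (.node 20 .bad (.node 17 .bad (.node 9 (.node 11 (.leaf 848893877424193) .bad
  (.leaf 848893877424193) .bad) (.node 11 (.leaf 848892786905153) (.leaf 848892786905153) (.leaf
  567418883936322) .bad) (.leaf 567419974455362) .bad) .bad (.node 9 (.node 11 (.leaf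
  853292997677122) .bad (.leaf 567419974455362) .bad) (.node 11 (.leaf 853291907158082) (.leaf
  853291907158082) (.leaf 567418883936322) .bad) (.leaf 567419974455362) .bad)) .bad (.node 17
  .bad (.node 9 (.leaf 567419974455362) (.leaf 567418883936322) (.leaf 567419974455362) .bad)
  .bad (.node 9 (.leaf 567419974455362) (.leaf 567418883936322) (.leaf 285944980967491) .bad)))
  .bad) .bad (.node 13 (.node 20 .bad .bad (.node 17 .bad (.leaf 848892786905409) .bad .bad)
  (.node 17 .bad (.leaf 848892786905409) .bad .bad)) (.node 15 (.leaf 285944980967745) .bad .bad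
  .bad) (.node 15 (.node 20 .bad (.node 17 .bad (.node 7 (.node 11 (.leaf 848892786905153)
  (.leaf 848892786905153) (.leaf 567418883936322) .bad) (.node 11 .bad (.leaf 848892786905281)
  (.leaf 848892786905281) .bad) (.leaf 567418883940545) .bad) .bad (.node 11 (.leaf
  853291907158082) (.leaf 853291907158082) (.leaf 567418883936322) .bad)) (.node 17 .bad (.node
  7 (.leaf 848892786905218) (.leaf 848892786905281) .bad .bad) .bad (.leaf 853291907158147))
  (.node 17 .bad (.node 0 (.leaf 567418883936322) (.leaf 567418883936513) (.leaf
  567418883936513) .bad) .bad (.node 2 (.leaf 567418883936322) (.leaf 567418883936387) (.leaf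
  285944980967491) .bad))) .bad (.node 20 .bad (.node 17 .bad (.node 11 (.leaf 848892786905153)
  (.leaf 848892786905153) (.leaf 567418883936322) .bad) .bad (.node 11 (.leaf 853291907158082)
  (.leaf 848892786905155) (.leaf 567418883936322) .bad)) (.node 17 .bad (.leaf 848892786905155)
  .bad (.leaf 848892786905155)) (.node 17 .bad (.node 2 (.leaf 567418883936322) (.leaf
  848892786905155) (.leaf 567418883936387) .bad) .bad (.node 2 (.leaf 567418883936322) (.leaf
  848892786905155) (.leaf 285944980967491) .bad))) .bad) .bad) (.node 15 (.node 17 .bad (.node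
  13 .bad (.leaf 285944980967745) (.node 7 (.leaf 285944980967554) .bad (.leaf 285944980967617)
  .bad) .bad) .bad (.leaf 285944980967491)) .bad (.node 17 .bad (.leaf 567419974455427) .bad
  (.leaf 285944980967491)) .bad)) .bad (.node 15 (.node 18 (.node 17 (.node 20 .bad (.node 25
  .bad (.node 27 .bad (.leaf 303535019532417) (.node 11 .bad (.leaf 294738926510209) (.leaf
  290409599475841) .bad) .bad) .bad (.leaf 286080272445505)) .bad (.node 25 .bad (.leaf
  290409599475841) .bad (.leaf 286080272441473))) (.node 20 .bad (.node 24 .bad (.node 25 .bad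
  (.node 7 (.node 9 (.node 11 (.leaf 571816947224641) .bad (.leaf 285943924002881) .bad) (.node
  11 (.leaf 571815856705601) (.leaf 571815856705601) (.leaf 285942833483841) .bad) (.leaf
  285943924002881) .bad) (.node 11 .bad (.leaf 571815856709761) (.leaf 285942833488001) .bad)
  (.node 9 .bad (.leaf 285942833488001) (.leaf 285943924007041) .bad) .bad) .bad (.node 7 (.node
  9 (.leaf 285943924002881) (.leaf 285942833483841) (.leaf 285943924002881) .bad) (.leaf
  285942833488001) (.node 9 .bad (.leaf 285942833488001) (.leaf 285942867042433) .bad) .bad))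
  .bad (.node 25 .bad (.node 7 (.node 11 (.leaf 571815856705601) (.leaf 571815856705601) (.leaf
  285942833483841) .bad) (.node 11 .bad (.leaf 294738926510209) (.leaf 285942833488001) .bad)
  (.leaf 285942833488001) .bad) .bad (.node 7 (.leaf 285942833483841) (.leaf 285942833488001)
  (.leaf 285942833488001) .bad))) .bad (.node 24 .bad (.node 25 .bad (.node 7 (.node 9 (.leaf
  285943924002881) (.leaf 285942833483841) (.leaf 285943924002881) .bad) (.leaf 285942833488001)
  (.node 9 .bad (.leaf 285942833488001) (.leaf 285943924003009) .bad) .bad) .bad (.node 7 (.node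
  9 (.leaf 285943924002881) (.leaf 285942833483841) (.leaf 285943924002881) .bad) (.leaf
  285942833488001) (.node 9 .bad (.leaf 285942833488001) (.leaf 285942867038401) .bad) .bad))
  .bad (.node 25 .bad (.node 7 (.leaf 285942833483841) (.leaf 285942833488001) (.leaf
  285942833488001) .bad) .bad (.node 7 (.leaf 285942833483841) (.leaf 285942833488001) (.leaf
  285942833488001) .bad)))) .bad (.node 27 (.node 24 (.node 25 .bad (.leaf 303536110047297) .bad
  .bad) .bad .bad (.node 25 .bad (.leaf 303535019528257) .bad .bad)) (.node 20 .bad (.leaf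
  303535019528257) .bad .bad) (.node 20 .bad (.node 24 (.node 25 .bad (.node 11 (.leaf
  294740017025089) .bad (.leaf 290410689990721) .bad) .bad (.leaf 290410689990721)) (.node 25
  .bad (.node 9 (.node 11 (.leaf 294740017025089) .bad (.leaf 285943924002881) .bad) (.node 11
  (.leaf 571815856705601) (.leaf 571815856705601) (.leaf 285942833483841) .bad) (.leaf
  285943924002881) .bad) .bad (.node 9 (.leaf 285943924002881) (.leaf 285942833483841) (.leaf
  285943924002881) .bad)) .bad (.node 25 .bad (.node 0 (.leaf 294738926506049) (.leaf
  294738926506049) (.leaf 285942833483841) .bad) .bad (.node 6 (.leaf 290409599471681) (.leaf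
  290409599471681) (.leaf 285942833483841) .bad))) .bad (.node 24 (.node 25 .bad (.leaf
  286082419920961) .bad (.leaf 286081362956353)) (.node 25 .bad (.node 9 (.leaf 285943924002881)
  (.leaf 285942833483841) (.leaf 285943924002881) .bad) .bad (.node 9 (.leaf 285943924002881)
  (.leaf 285942833483841) (.leaf 285943924002881) .bad)) .bad (.node 25 .bad (.node 6 (.leaf
  290409599471681) (.leaf 290409599471681) (.leaf 285942833483841) .bad) .bad (.node 6 (.leaf
  286080272437313) (.leaf 286080272437313) (.leaf 285942833483841) .bad)))) .bad)) .bad (.node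
  17 (.node 20 .bad (.node 25 .bad (.node 27 .bad (.leaf 303535019528385) (.node 11 .bad (.leaf
  294738926506177) (.leaf 290409599475841) .bad) .bad) .bad (.leaf 290409599475841)) (.node 13
  (.node 27 .bad (.leaf 303535019528513) (.leaf 294738926506305) .bad) .bad (.node 27 .bad
  (.leaf 303535019528385) (.leaf 294738926506177) .bad) .bad) (.node 25 .bad (.node 13 (.leaf
  290409599471937) .bad (.node 2 (.leaf 290409599471809) (.leaf 290409599471809) .bad .bad)
  .bad) .bad (.node 13 (.leaf 286080272437569) .bad (.node 2 (.leaf 286080272437441) (.leaf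
  286080272437441) .bad .bad) .bad))) (.node 20 .bad (.node 25 .bad (.node 24 .bad (.node 7
  (.node 11 (.leaf 571815856705601) (.leaf 571815856705601) (.leaf 285942833483841) .bad) (.node
  11 .bad (.leaf 571815856705729) (.leaf 285942833488001) .bad) (.leaf 285942833488001) .bad)
  .bad (.node 7 (.node 11 (.leaf 571815856705601) (.leaf 571815856705601) (.leaf
  285942833483841) .bad) (.node 11 .bad (.leaf 294738926506177) (.leaf 285942833488001) .bad)
  (.leaf 285942833488001) .bad)) .bad (.node 24 .bad (.node 7 (.leaf 285942833483841) (.leaf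
  285942833488001) (.leaf 285942833488001) .bad) .bad (.node 7 (.leaf 285942833483841) (.leaf
  285942833488001) (.leaf 285942833488001) .bad))) (.node 24 .bad (.node 13 (.leaf
  571815856705857) .bad (.node 7 (.leaf 571815856705666) (.leaf 571815856705729) .bad .bad)
  .bad) .bad (.node 13 (.leaf 294738926506305) .bad (.node 7 (.leaf 571815856705666) (.leaf
  294738926506177) .bad .bad) .bad)) (.node 24 .bad (.node 13 (.node 25 .bad (.leaf
  285942833484097) .bad (.leaf 285942833484097)) (.node 25 .bad (.leaf 285942833484097) .bad
  (.leaf 285942833484097)) (.node 25 .bad (.node 0 (.leaf 285942833483841) (.leaf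
  285942833483969) (.leaf 285942833483969) .bad) .bad (.node 0 (.leaf 285942833483841) (.leaf
  285942833483969) (.leaf 285942833483969) .bad)) .bad) .bad (.node 13 (.node 25 .bad (.leaf
  285942833484097) .bad (.leaf 285942833484097)) (.node 25 .bad (.leaf 285942833484097) .bad
  (.leaf 285942833484097)) (.node 25 .bad (.node 0 (.leaf 285942833483841) (.leaf
  285942833483969) (.leaf 285942833483969) .bad) .bad (.node 0 (.leaf 285942833483841) (.leaf
  285942833483969) (.leaf 285942833483969) .bad)) .bad))) .bad (.node 20 .bad (.node 27 (.node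
  24 .bad .bad .bad (.node 25 .bad (.leaf 303535019528257) .bad .bad)) (.leaf 303535019528257)
  (.node 24 .bad (.node 25 .bad (.node 11 (.leaf 571815856705601) (.leaf 571815856705601) (.leaf
  285942833483841) .bad) .bad (.leaf 285942833483841)) .bad (.node 25 .bad (.node 0 (.leaf
  294738926506049) (.leaf 294738926506049) (.leaf 285942833483841) .bad) .bad (.node 6 (.leaf
  290409599471681) (.leaf 290409599471681) (.leaf 285942833483841) .bad))) .bad) (.node 24 .bad
  (.leaf 571815856705666) .bad (.node 27 .bad (.leaf 303535019528322) (.node 6 .bad (.leaf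
  294738926506114) (.leaf 294738926506114) .bad) .bad)) (.node 24 .bad (.node 25 .bad (.node 2
  (.leaf 285942833483841) (.leaf 285942833483906) (.leaf 285942833483906) .bad) .bad (.node 2
  (.leaf 285942833483841) (.leaf 285942833483906) (.leaf 285942833483906) .bad)) .bad (.node 25
  .bad (.node 2 (.node 6 (.leaf 290409599471681) (.leaf 290409599471681) (.leaf 285942833483841)
  .bad) (.node 6 .bad (.leaf 290409599471746) (.leaf 285942833483906) .bad) (.leaf
  285942833483906) .bad) .bad (.node 2 (.node 6 (.leaf 286080272437313) (.leaf 286080272437313)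
  (.leaf 285942833483841) .bad) (.node 6 .bad (.leaf 286080272437378) (.leaf 285942833483906)
  .bad) (.leaf 285942833483906) .bad))))) (.node 17 .bad (.node 25 .bad (.node 13 .bad (.leaf
  285943924003137) (.node 7 (.leaf 285943924002946) .bad (.leaf 285943924003009) .bad) .bad)
  .bad (.node 13 .bad (.leaf 285942867038529) (.node 7 (.leaf 285943924002946) .bad (.leaf
  285942867038401) .bad) .bad)) .bad (.node 25 .bad (.leaf 285944980967491) .bad (.leaf
  285943924002946)))) (.node 18 (.node 24 .bad (.node 20 .bad (.node 22 .bad (.leaf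
  285942900596865) (.node 9 .bad (.leaf 285942850527361) (.leaf 285942867042433) .bad) .bad)
  .bad (.node 22 .bad (.leaf 285942900592833) (.node 9 .bad (.leaf 285942850527361) (.leaf
  285942867038401) .bad) .bad)) .bad (.node 20 .bad (.leaf 285942834016321) .bad (.leaf
  285942850527361))) .bad (.node 20 .bad (.node 24 .bad (.leaf 285942850527361) .bad (.leaf
  285942834012289)) .bad (.node 24 .bad (.node 13 .bad (.leaf 285942850523457) (.node 2 (.leaf
  285942850523329) .bad (.leaf 285942850523329) .bad) .bad) .bad (.node 13 .bad (.leaf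
  285942834008385) (.node 2 (.leaf 285942834008257) .bad (.leaf 285942834008257) .bad) .bad)))
  (.node 13 .bad (.node 22 .bad (.leaf 285942900592961) (.leaf 285942867038529) .bad) (.node 22
  .bad (.leaf 285942900592833) (.leaf 285942867038401) .bad) .bad)) (.node 18 (.node 17 .bad
  (.node 20 .bad (.node 22 (.node 25 .bad .bad (.node 24 .bad (.leaf 571815923814465) .bad .bad)
  (.node 24 .bad (.leaf 285942900592705) .bad .bad)) (.leaf 285942900592705) (.node 25 .bad
  (.node 24 .bad (.node 9 (.node 11 (.leaf 571815890260033) .bad (.leaf 285943924002881) .bad)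
  (.node 11 (.leaf 571815856705601) (.leaf 571815856705601) (.leaf 285942833483841) .bad) (.leaf
  285943924002881) .bad) .bad (.node 11 (.leaf 571815856705601) (.leaf 571815856705601) (.leaf
  285942833483841) .bad)) (.node 24 .bad (.node 9 (.leaf 571815890260033) (.leaf
  571815873744961) .bad .bad) .bad (.leaf 571815873744961)) (.node 24 .bad (.node 0 (.leaf
  285942867038273) (.leaf 285942833483841) (.leaf 285942867038273) .bad) .bad (.node 4 (.leaf
  285942850523201) (.leaf 285942833483841) (.leaf 285942850523201) .bad))) .bad) .bad (.node 22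
  (.node 24 .bad (.node 25 .bad .bad .bad (.leaf 285942900592705)) .bad .bad) (.leaf
  285942900592705) (.node 24 .bad (.node 25 .bad (.node 9 (.leaf 285943924002881) (.leaf
  285942833483841) (.leaf 285943924002881) .bad) .bad (.node 0 (.leaf 285942867038273) (.leaf
  285942833483841) (.leaf 285942867038273) .bad)) .bad (.node 25 .bad (.leaf 285942833483841)
  .bad (.node 4 (.leaf 285942850523201) (.leaf 285942833483841) (.leaf 285942850523201) .bad)))
  .bad)) .bad (.node 20 .bad (.node 24 (.node 25 .bad (.node 27 (.leaf 303535053082689) .bad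
  (.node 11 (.leaf 294738960060481) .bad (.leaf 290410689990721) .bad) .bad) (.node 22 (.node 27
  (.leaf 303535086637121) .bad (.leaf 294738993614913) .bad) .bad (.node 27 (.leaf
  303535053082689) .bad (.leaf 294738960060481) .bad) .bad) (.node 22 (.leaf 290409666580545)
  .bad (.node 4 (.leaf 290409633026113) (.leaf 290409633026113) .bad .bad) .bad)) (.node 25 .bad
  (.node 9 (.node 11 (.leaf 294738960060481) .bad (.leaf 285943924002881) .bad) (.node 11 (.leaf
  571815856705601) (.leaf 571815856705601) (.leaf 285942833483841) .bad) (.leaf 285943924002881)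
  .bad) (.node 22 (.leaf 294738993614913) .bad (.node 9 (.leaf 294738960060481) (.leaf
  294738960060481) .bad .bad) .bad) (.node 22 (.leaf 285942900592705) (.leaf 285942900592705)
  (.node 0 (.leaf 285942867038273) (.leaf 285942833483841) (.leaf 285942867038273) .bad) .bad))
  .bad (.node 25 .bad (.node 27 (.leaf 303535019528257) (.leaf 303535019528257) (.node 0 (.leaf
  294738926506049) (.leaf 294738926506049) (.leaf 285942833483841) .bad) .bad) (.node 27 (.leaf
  303535036567617) .bad (.node 6 (.leaf 294738943545409) .bad (.leaf 294738943545409) .bad)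
  .bad) (.node 4 (.node 6 (.leaf 290409616511041) .bad (.leaf 285942850523201) .bad) (.node 6
  (.leaf 290409599471681) (.leaf 290409599471681) (.leaf 285942833483841) .bad) (.leaf
  285942850523201) .bad))) .bad (.node 22 (.node 24 (.node 25 .bad .bad .bad (.leaf
  286080339546177)) (.node 25 .bad .bad .bad (.leaf 285942900592705)) .bad .bad) (.leaf
  285942900592705) (.node 24 (.node 25 .bad (.leaf 290410689990721) .bad (.node 4 (.leaf
  286080305991745) (.leaf 286080305991745) .bad .bad)) (.node 25 .bad (.node 9 (.leaf
  285943924002881) (.leaf 285942833483841) (.leaf 285943924002881) .bad) .bad (.node 0 (.leaf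
  285942867038273) (.leaf 285942833483841) (.leaf 285942867038273) .bad)) .bad (.node 25 .bad
  (.node 6 (.leaf 290409599471681) (.leaf 290409599471681) (.leaf 285942833483841) .bad) .bad
  (.node 4 (.node 6 (.leaf 286080289476673) .bad (.leaf 285942850523201) .bad) (.node 6 (.leaf
  286080272437313) (.leaf 286080272437313) (.leaf 285942833483841) .bad) (.leaf 285942850523201)
  .bad))) .bad))) .bad (.node 20 .bad (.node 27 (.node 25 .bad (.node 24 .bad .bad .bad (.leaf
  303535019528257)) (.node 24 .bad .bad .bad (.leaf 303535020052545)) .bad) (.node 17 .bad .bad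
  .bad (.leaf 303535019528257)) (.node 17 .bad (.node 25 .bad (.node 24 .bad (.node 11 (.leaf
  571815856705601) (.leaf 571815856705601) (.leaf 285942833483841) .bad) .bad (.node 11 (.leaf
  571815856705601) (.leaf 571815856705601) (.leaf 285942833483841) .bad)) (.node 24 .bad (.leaf
  571815873744961) .bad (.leaf 571815857229889)) (.node 24 .bad (.node 4 (.leaf 285942850523201)
  (.leaf 285942833483841) (.leaf 285942850523201) .bad) .bad (.node 4 (.leaf 285942834008129)
  (.leaf 285942833483841) (.leaf 285942834008129) .bad))) .bad (.node 25 .bad (.node 24 .bad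
  (.node 11 (.leaf 571815856705601) (.leaf 571815856705601) (.leaf 285942833483841) .bad) .bad
  (.node 0 (.leaf 294738926506049) (.leaf 294738926506049) (.leaf 285942833483841) .bad)) (.node
  24 .bad (.leaf 571815873744961) .bad (.node 6 (.leaf 294738927030337) .bad (.leaf
  294738927030337) .bad)) (.node 24 .bad (.node 4 (.leaf 285942850523201) (.leaf
  285942833483841) (.leaf 285942850523201) .bad) .bad (.node 4 (.node 6 (.leaf 290409599995969)
  .bad (.leaf 285942834008129) .bad) (.node 6 (.leaf 290409599471681) (.leaf 290409599471681)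
  (.leaf 285942833483841) .bad) (.leaf 285942834008129) .bad)))) .bad) (.node 17 .bad (.node 24
  .bad (.leaf 848892786905155) .bad (.leaf 571815856705666)) .bad (.node 24 .bad (.leaf
  571815856705603) .bad (.node 27 .bad (.leaf 303535019528259) (.node 6 .bad (.leaf
  294738926506051) (.leaf 294738926506051) .bad) .bad))) (.node 17 .bad (.node 25 .bad (.node 24
  .bad (.node 2 (.leaf 285942833483841) (.leaf 285942833483906) (.leaf 285942833483906) .bad)
  .bad (.node 2 (.leaf 285942833483841) (.leaf 285942833483906) (.leaf 285942833483906) .bad))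
  .bad (.node 24 .bad (.node 2 (.node 4 (.leaf 285942850523201) (.leaf 285942833483841) (.leaf
  285942850523201) .bad) (.leaf 285942833483906) (.node 4 .bad (.leaf 285942833483906) (.leaf
  285942850523266) .bad) .bad) .bad (.node 2 (.node 4 (.leaf 285942834008129) (.leaf
  285942833483841) (.leaf 285942834008129) .bad) (.leaf 285942833483906) (.node 4 .bad (.leaf
  285942833483906) (.leaf 285942834008194) .bad) .bad))) .bad (.node 24 .bad (.node 25 .bad
  (.node 2 (.leaf 285942833483841) (.leaf 285942833483843) (.leaf 285942833483843) .bad) .bad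
  (.node 2 (.node 4 (.leaf 285942850523201) (.leaf 285942833483841) (.leaf 285942850523201)
  .bad) (.leaf 285942833483843) (.node 4 .bad (.leaf 285942833483843) (.leaf 285942850523203)
  .bad) .bad)) .bad (.node 25 .bad (.node 2 (.node 6 (.leaf 290409599471681) (.leaf
  290409599471681) (.leaf 285942833483841) .bad) (.node 6 .bad (.leaf 290409599471683) (.leaf
  285942833483843) .bad) (.leaf 285942833483843) .bad) .bad (.node 2 (.node 4 (.node 6 (.leaf
  286080289476673) .bad (.leaf 285942834008129) .bad) (.node 6 (.leaf 286080272437313) (.leaf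
  286080272437313) (.leaf 285942833483841) .bad) (.leaf 285942834008129) .bad) (.node 6 .bad
  (.leaf 286080272437378) (.leaf 285942833483843) .bad) (.node 4 .bad (.leaf 285942833483843)
  (.leaf 285942834008194) .bad) .bad))))) (.node 25 .bad (.node 17 .bad (.leaf 285943924002946)
  .bad (.leaf 285943924002883)) .bad (.node 17 .bad (.node 22 .bad (.leaf 285942900592770)
  (.node 4 .bad (.leaf 285942867038338) (.leaf 285942867038338) .bad) .bad) .bad (.node 22 .bad
  (.leaf 285942900592707) (.node 4 .bad (.leaf 285942867038275) (.leaf 285942867038275) .bad)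
  .bad)))) .bad)) .bad (.node 15 (.node 13 (.node 17 (.node 20 .bad .bad .bad (.leaf
  286080272437569)) (.node 20 .bad .bad .bad (.leaf 286080272437569)) .bad .bad) (.node 18 .bad
  .bad (.leaf 285942834008385) .bad) (.node 17 (.node 18 (.node 20 .bad (.leaf 286080272445505)
  .bad (.leaf 286080272441473)) .bad (.node 20 .bad (.leaf 290478319218817) .bad (.node 2 (.leaf
  286080272437441) (.leaf 286080272437441) .bad .bad)) .bad) (.node 18 (.node 20 .bad (.node 7
  (.leaf 286011553226817) (.leaf 286080272445505) (.leaf 285942834016321) .bad) .bad (.node 7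
  (.leaf 286011553226817) (.leaf 286080272441473) (.leaf 286011553230977) .bad)) .bad (.node 20
  .bad (.node 7 (.leaf 286011553226817) (.leaf 286011553230977) (.leaf 285942834012289) .bad)
  .bad (.node 0 (.leaf 286011553222785) (.leaf 286011553222913) (.leaf 286011553222913) .bad))
  .bad) .bad (.node 18 (.node 20 .bad (.node 6 (.leaf 290478319214657) (.leaf 286080272445505)
  (.leaf 286011553226817) .bad) .bad (.node 6 (.leaf 286080272437313) (.leaf 286080272437313)
  (.leaf 286011553226817) .bad)) .bad (.node 20 .bad (.node 6 (.leaf 290478319214657) (.leaf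
  290478319214657) (.leaf 286011553226817) .bad) .bad (.node 2 (.node 6 (.leaf 286080272437313)
  (.leaf 286080272437313) (.leaf 286011553222785) .bad) (.node 6 .bad (.leaf 286080272437378)
  (.leaf 286080272437378) .bad) (.leaf 286011553222850) .bad)) .bad)) .bad) (.node 18 (.node 20
  .bad (.leaf 285942834016321) .bad (.leaf 286011570270337)) .bad (.node 20 .bad (.leaf
  285942834012289) .bad (.node 13 .bad (.leaf 285942834008385) (.node 2 (.leaf 285942834008257)
  .bad (.leaf 285942834008257) .bad) .bad)) .bad) (.node 18 (.node 17 .bad (.node 20 .bad (.node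
  4 (.leaf 286011570266177) (.leaf 286011553226817) (.leaf 285942834016321) .bad) .bad (.node 4
  (.leaf 286011570266177) (.leaf 286011553226817) (.leaf 286011570266177) .bad)) .bad (.node 20
  .bad (.node 4 (.node 6 (.leaf 290478336254017) .bad (.leaf 286011570266177) .bad) (.node 6
  (.leaf 290478319214657) (.leaf 290478319214657) (.leaf 286011553226817) .bad) (.leaf
  286011570266177) .bad) .bad (.node 4 (.node 6 (.leaf 286080289476673) .bad (.leaf
  286080289476673) .bad) (.node 6 (.leaf 286080272437313) (.leaf 286080272437313) (.leaf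
  286011553226817) .bad) (.leaf 286011570266177) .bad))) .bad (.node 17 .bad (.node 20 .bad
  (.node 4 (.leaf 285942834008129) (.leaf 286011553226817) (.leaf 285942834008129) .bad) .bad
  (.node 2 (.node 4 (.leaf 285942834008129) (.leaf 286011553222785) (.leaf 285942834008129)
  .bad) (.leaf 286011553222850) (.node 4 .bad (.leaf 285942834008194) (.leaf 285942834008194)
  .bad) .bad)) .bad (.node 20 .bad (.node 4 (.node 6 (.leaf 290409599995969) .bad (.leaf
  285942834008129) .bad) (.node 6 (.leaf 290409599995969) (.leaf 290478319214657) (.leaf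
  286011553226817) .bad) (.leaf 285942834008129) .bad) .bad (.node 2 (.node 4 (.node 6 (.leaf
  286080272961601) .bad (.leaf 285942834008129) .bad) (.node 6 (.leaf 286080272437313) (.leaf
  286080272437313) (.leaf 286011553222722) .bad) (.leaf 285942834008129) .bad) (.node 6 .bad
  (.leaf 286080272437378) (.leaf 286080272437378) .bad) (.node 4 .bad (.leaf 285942834008194)
  (.leaf 285942834008194) .bad) .bad))) .bad) .bad))) .bad (.node 24 (.node 25 .bad (.node 15
  (.node 26 .bad .bad .bad (.leaf 286082419920961)) .bad (.node 26 .bad .bad .bad (.leaf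
  290480483209282)) .bad) .bad (.node 15 (.node 23 (.leaf 286218801909825) (.leaf
  286081362956353) .bad .bad) .bad (.node 23 (.node 22 (.leaf 286217778499649) .bad (.node 4
  (.leaf 286217744945217) (.leaf 286217744945217) .bad .bad) .bad) (.node 22 (.leaf
  286080339546177) .bad (.node 4 (.leaf 286080305991745) (.leaf 286080305991745) .bad .bad)
  .bad) .bad .bad) .bad)) (.node 25 .bad (.node 18 (.node 15 (.node 26 .bad (.node 9 (.leaf
  286014774186050) (.leaf 567488677154883) (.leaf 285944980967491) .bad) .bad (.node 9 (.leaf
  286082419920961) (.leaf 286012626702402) (.leaf 285944980967491) .bad)) .bad (.node 26 .bad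
  (.node 9 (.leaf 567489767673923) (.leaf 567488677154883) (.leaf 285944980967491) .bad) .bad
  (.node 9 (.leaf 286013717221442) (.leaf 286012626702402) (.leaf 285943924002883) .bad)) .bad)
  .bad (.node 26 .bad (.node 15 (.node 2 (.leaf 567488677154883) (.leaf 567488677154948) (.leaf
  285944980967491) .bad) .bad (.node 2 (.leaf 567488677154883) (.leaf 567418883936324) (.leaf
  285944980967491) .bad) .bad) .bad (.node 15 (.node 2 (.leaf 286012626702402) (.leaf
  286012626702467) (.leaf 285944980967491) .bad) .bad (.node 2 (.leaf 286012626702402) (.leaf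
  285942833483843) (.leaf 285942833483843) .bad) .bad)) (.node 15 (.node 26 .bad (.leaf
  285944980967491) .bad (.leaf 285944980967491)) .bad (.node 26 .bad (.leaf 285944980967491)
  .bad (.leaf 285943924002883)) .bad)) .bad (.node 18 (.node 22 (.leaf 286080339546177) (.node
  15 .bad .bad (.leaf 285942900592707) .bad) (.node 15 (.node 9 (.leaf 286081362956353) (.leaf
  286012626702402) (.leaf 286013717221442) .bad) .bad (.node 0 (.leaf 286011603292226) (.leaf
  286011569737794) (.leaf 286011603292226) .bad) .bad) .bad) .bad (.node 15 (.node 2 (.leaf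
  286012626702402) (.leaf 286012626702467) (.leaf 286012626702467) .bad) .bad (.node 2 (.node 4
  (.leaf 286011586777154) (.leaf 286011569737794) (.leaf 285942850523203) .bad) (.leaf
  285942833483843) (.node 4 .bad (.leaf 285942833483843) (.leaf 285942850523203) .bad) .bad)
  .bad) (.node 15 (.leaf 286013717221507) .bad (.node 22 .bad (.leaf 285942900592707) (.node 4
  .bad (.leaf 285942867038275) (.leaf 285942867038275) .bad) .bad) .bad))) .bad (.node 25 .bad
  (.node 18 (.node 15 (.node 6 (.leaf 286082419920961) (.leaf 290479392690242) (.leaf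
  286012626702402) .bad) .bad (.node 6 (.leaf 290479392690242) (.leaf 290479392690242) (.leaf
  286012626702402) .bad) .bad) .bad (.node 15 (.node 2 (.node 6 (.leaf 290479392690242) (.leaf
  290479392690242) (.leaf 286012626702402) .bad) (.node 6 .bad (.leaf 290479392690307) (.leaf
  286012626702467) .bad) (.leaf 286012626702467) .bad) .bad (.node 2 (.node 6 (.leaf
  290479392690242) (.leaf 290409599471683) (.leaf 286012626702402) .bad) (.node 6 .bad (.leaf
  290409599471683) (.leaf 285942833483843) .bad) (.leaf 285942833483843) .bad) .bad) .bad) .bad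
  (.node 18 (.node 15 (.node 5 (.node 23 .bad .bad .bad (.leaf 286217711390785)) (.leaf
  286217711390785) (.node 23 .bad (.node 6 (.leaf 286080272437313) (.leaf 286080272437313)
  (.leaf 286012626702402) .bad) .bad (.node 6 (.leaf 286080272437313) (.leaf 286080272437313)
  (.leaf 286081346445378) .bad)) .bad) .bad (.node 5 (.node 23 .bad .bad .bad (.node 4 (.leaf
  286217728430145) (.leaf 286217711390785) .bad .bad)) (.leaf 286217711390785) (.node 4 (.node
  23 .bad (.node 6 (.leaf 286080289476673) .bad (.leaf 286080289476673) .bad) .bad (.node 6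
  (.leaf 286080289476673) .bad (.leaf 286080289476673) .bad)) (.node 23 .bad (.node 6 (.leaf
  286080272437313) (.leaf 286080272437313) (.leaf 286011569737794) .bad) .bad (.node 6 (.leaf
  286080272437313) (.leaf 286080272437313) (.leaf 286080289480770) .bad)) (.node 23 .bad (.leaf
  286011586777154) .bad (.leaf 286080306520130)) .bad) .bad) .bad) .bad (.node 15 (.node 5
  (.node 23 .bad .bad .bad (.leaf 286217711390785)) (.node 2 (.leaf 286217711390785) (.leaf
  286217711390850) .bad .bad) (.node 23 .bad (.node 2 (.node 6 (.leaf 286080272437313) (.leaf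
  286080272437313) (.leaf 286012626702402) .bad) (.node 6 .bad (.leaf 286080272437378) (.leaf
  286080272437378) .bad) (.leaf 286012626702467) .bad) .bad (.node 2 (.node 6 (.leaf
  286080272437313) (.leaf 286080272437313) (.leaf 286081346441346) .bad) (.node 6 .bad (.leaf
  286080272437378) (.leaf 286080272437378) .bad) (.leaf 286081346441411) .bad)) .bad) .bad
  (.node 5 (.node 23 .bad .bad .bad (.node 4 (.leaf 286217711915073) (.leaf 286217711390785)
  .bad .bad)) (.node 2 (.leaf 286217711390785) (.leaf 286217711390787) .bad .bad) (.node 23 .bad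
  (.node 2 (.node 4 (.node 6 (.leaf 286080289476673) .bad (.leaf 286080289476673) .bad) (.node 6
  (.leaf 286080272437313) (.leaf 286080272437313) (.leaf 286011553222722) .bad) (.leaf
  285942850523203) .bad) (.node 6 .bad (.leaf 286080272437315) (.leaf 285942833483843) .bad)
  (.node 4 .bad (.leaf 285942833483843) (.leaf 285942850523203) .bad) .bad) .bad (.node 2 (.node
  4 (.node 6 (.leaf 286080272961601) .bad (.leaf 286080272961601) .bad) (.node 6 (.leaf
  286080272437313) (.leaf 286080272437313) (.leaf 286011553222722) .bad) (.leaf 286011570262082)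
  .bad) (.node 6 .bad (.leaf 286080272437315) (.leaf 286080272437315) .bad) (.node 4 .bad (.leaf
  286011553222787) (.leaf 286011570262147) .bad) .bad)) .bad) .bad) .bad)))) (.node 15 (.node 16
  .bad (.node 17 .bad (.node 13 .bad (.leaf 285947128451393) (.node 7 (.leaf 285947128451202)
  .bad (.leaf 285947128451265) .bad) .bad) .bad (.leaf 285947128451139)) .bad (.leaf
  285947128451139)) .bad .bad .bad)) (.node 18 .bad (.leaf 285942834548801) (.node 20 .bad
  (.node 21 .bad (.leaf 285942834540609) .bad (.leaf 285942834536577)) .bad (.node 13 .bad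
  (.leaf 285942834532673) (.node 2 (.leaf 285942834532545) .bad (.leaf 285942834532545) .bad)
  .bad)) .bad) (.node 20 .bad (.node 26 .bad (.node 12 (.leaf 1411842740850753) (.node 17 .bad
  (.node 21 .bad (.leaf 1411842740326467) .bad .bad) .bad .bad) (.node 17 .bad (.node 21 .bad
  (.node 11 (.leaf 1130367763877954) (.leaf 1130367763877954) (.leaf 1130368837886019) .bad)
  .bad (.node 11 (.leaf 1130367763877954) (.leaf 848892786905155) (.leaf 848893860909123) .bad))
  .bad (.node 11 (.leaf 1134766884130883) (.leaf 848892786905155) (.leaf 848893860909123) .bad))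
  .bad) (.node 23 .bad (.node 24 .bad (.leaf 1411842740850753) .bad .bad) (.node 24 .bad .bad
  (.leaf 1411842741375041) .bad) .bad) (.node 24 .bad (.node 25 .bad (.node 17 .bad (.node 21
  .bad (.node 11 (.leaf 848892787429441) (.leaf 1130367763877954) (.leaf 848892787433538) .bad)
  .bad (.node 11 (.leaf 848892787429441) (.leaf 848892786905155) (.leaf 567417810456642) .bad))
  .bad (.node 11 (.leaf 853290833678402) (.leaf 571815856705603) (.leaf 567417810456642) .bad))
  (.node 17 .bad (.node 21 .bad (.leaf 848892787429441) .bad (.leaf 848892787429441)) .bad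
  (.leaf 853290850717762)) (.node 17 .bad (.node 21 .bad (.node 4 (.leaf 848892787429441) (.leaf
  848892787433538) (.leaf 848892804472898) .bad) .bad (.node 4 (.leaf 848892787429441) (.leaf
  567417810456642) (.leaf 567417827496002) .bad)) .bad (.node 4 (.leaf 567417827496002) (.leaf
  567417810456642) (.leaf 567417827496002) .bad))) .bad (.node 25 .bad (.node 27 (.leaf
  303535020052545) (.node 17 .bad .bad .bad (.leaf 303535019528259)) (.node 17 .bad (.node 21
  .bad (.node 11 (.leaf 848892787429441) (.leaf 1134765810655298) (.leaf 848892787433538) .bad)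
  .bad (.node 11 (.leaf 571815857229889) (.leaf 853290833678402) (.leaf 567417810456642) .bad))
  .bad (.node 0 (.leaf 299136973279298) (.leaf 299136973279298) (.leaf 290340880257090) .bad))
  .bad) (.node 17 .bad (.node 23 .bad (.node 21 .bad (.leaf 848892787429441) .bad (.leaf
  571815857229889)) (.node 21 .bad (.leaf 848892787953729) .bad (.leaf 571815857754177)) .bad)
  .bad (.node 23 .bad (.node 27 (.leaf 303535020052545) .bad (.node 6 (.leaf 294738927030337)
  .bad (.leaf 294738927030337) .bad) .bad) (.node 27 (.leaf 303535020576833) .bad (.node 6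
  (.leaf 294738927554625) .bad (.leaf 294738927554625) .bad) .bad) .bad)) (.node 17 .bad (.node
  21 .bad (.node 3 (.node 23 .bad .bad .bad (.leaf 848892787953729)) (.node 23 .bad (.node 4
  (.leaf 848892787429441) (.leaf 848892787433538) (.leaf 567417810985025) .bad) .bad (.node 4
  (.leaf 567417810985025) (.leaf 848961507176514) (.leaf 567417810985025) .bad)) (.leaf
  285942834540609) .bad) .bad (.node 3 (.node 23 .bad .bad .bad (.leaf 285942834532417)) (.node
  23 .bad (.node 4 (.leaf 285942834008129) (.leaf 567417810456642) (.leaf 285942834008129) .bad)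
  .bad (.node 4 (.leaf 285942834008129) (.leaf 567486530199618) (.leaf 285942834008129) .bad))
  (.leaf 285942834532417) .bad)) .bad (.node 3 (.node 23 .bad .bad .bad (.node 6 (.leaf
  290409600520257) .bad (.leaf 285942834532417) .bad)) (.node 4 (.node 23 .bad (.node 6 (.leaf
  290409599995969) .bad (.leaf 285942834008129) .bad) .bad (.node 6 (.leaf 290409599995969) .bad
  (.leaf 285942834008129) .bad)) (.node 23 .bad (.node 6 (.leaf 290409599995969) (.leaf
  294807646244930) (.leaf 290340880257090) .bad) .bad (.node 6 (.leaf 290409599995969) (.leaf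
  294876365987906) (.leaf 290409600000066) .bad)) (.node 23 .bad (.leaf 285942834008129) .bad
  (.leaf 285942834008129)) .bad) (.leaf 285942834532417) .bad))))) (.node 17 .bad (.node 21 .bad
  .bad (.leaf 1411842740326467) (.node 24 .bad (.node 26 .bad (.leaf 848892786905155) .bad
  (.leaf 848892786905155)) .bad (.leaf 853290833678467))) (.leaf 1411842740326469) (.node 24
  .bad (.node 16 .bad (.node 26 .bad (.leaf 848892786905155) .bad (.leaf 571815856705603))
  (.node 26 .bad (.leaf 848892786905157) .bad (.leaf 571815856705605)) .bad) .bad (.node 16 .bad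
  (.node 27 .bad (.leaf 303535019528259) (.node 6 .bad (.leaf 294738926506051) (.leaf
  294738926506051) .bad) .bad) (.node 27 .bad (.leaf 303535019528261) (.node 6 .bad (.leaf
  294738926506053) (.leaf 294738926506053) .bad) .bad) .bad))) (.node 26 .bad (.node 1 (.node 16
  .bad (.node 17 .bad (.node 2 (.leaf 848893860909123) (.leaf 848892786905155) (.leaf
  848893860909188) .bad) .bad (.node 2 (.leaf 848893860909123) (.leaf 848892786905155) (.leaf
  567418883936324) .bad)) .bad (.node 2 (.leaf 848963654127684) (.leaf 567418883936324) (.leaf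
  567418883936324) .bad)) (.node 16 .bad .bad .bad (.leaf 848892786905157)) (.leaf
  285944980967493) .bad) .bad (.node 16 .bad (.node 24 .bad (.node 25 .bad (.node 17 .bad (.node
  2 (.leaf 567417810456642) (.leaf 848892786905155) (.leaf 567417810456707) .bad) .bad (.node 2
  (.leaf 567417810456642) (.leaf 285942833483843) (.leaf 285942833483843) .bad)) .bad (.node 17
  .bad (.node 2 (.node 4 (.leaf 567417827496002) (.leaf 567417810456642) (.leaf 567417827496002)
  .bad) (.leaf 567417810456707) (.node 4 .bad (.leaf 567417810456707) (.leaf 567417827496067)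
  .bad) .bad) .bad (.node 2 (.node 4 (.leaf 567417827496002) (.leaf 567417810456642) (.leaf
  285942850523203) .bad) (.leaf 285942833483843) (.node 4 .bad (.leaf 285942833483843) (.leaf
  285942850523203) .bad) .bad))) .bad (.node 25 .bad (.node 17 .bad (.node 2 (.leaf
  567417810456642) (.leaf 567417810456707) (.leaf 567417810456707) .bad) .bad (.node 2 (.node 6
  (.leaf 294807646244930) (.leaf 290409599471683) (.leaf 290340880257090) .bad) (.node 6 .bad
  (.leaf 290409599471683) (.leaf 285942833483843) .bad) (.leaf 285942833483843) .bad)) .bad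
  (.node 17 .bad (.node 3 (.node 23 .bad .bad .bad (.leaf 285942834532417)) (.node 23 .bad
  (.node 2 (.node 4 (.leaf 285942834008129) (.leaf 567417810456642) (.leaf 285942834008129)
  .bad) (.leaf 567417810456707) (.node 4 .bad (.leaf 285942834008194) (.leaf 285942834008194)
  .bad) .bad) .bad (.node 2 (.node 4 (.leaf 285942834008129) (.leaf 567486530195586) (.leaf
  285942834008129) .bad) (.leaf 567486530195651) (.node 4 .bad (.leaf 285942834008194) (.leaf
  285942834008194) .bad) .bad)) (.node 2 (.leaf 285942834532417) .bad (.leaf 285942834532482)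
  .bad) .bad) .bad (.node 3 (.node 23 .bad .bad .bad (.node 6 (.leaf 286080273485889) .bad
  (.leaf 285942834532417) .bad)) (.node 23 .bad (.node 2 (.node 4 (.node 6 (.leaf
  290409599995969) .bad (.leaf 285942834008129) .bad) (.node 6 (.leaf 290409599995969) (.leaf
  290409599471683) (.leaf 286011553222722) .bad) (.leaf 285942834008129) .bad) (.node 6 .bad
  (.leaf 290409599471683) (.leaf 285942833483843) .bad) (.node 4 .bad (.leaf 285942833483843)
  (.leaf 285942834008131) .bad) .bad) .bad (.node 2 (.node 4 (.node 6 (.leaf 286080272961601)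
  .bad (.leaf 285942834008129) .bad) (.node 6 (.leaf 286080272961601) (.leaf 290478319210562)
  (.leaf 286011553222722) .bad) (.leaf 285942834008129) .bad) (.node 6 .bad (.leaf
  290478319210627) (.leaf 286011553222787) .bad) (.node 4 .bad (.leaf 285942834008131) (.leaf
  285942834008131) .bad) .bad)) (.node 2 (.leaf 285942834532417) .bad (.leaf 285942834532419)
  .bad) .bad)))) .bad (.node 23 .bad (.node 24 .bad (.node 25 .bad (.node 1 (.node 2 (.leaf
  567487603675203) (.leaf 285942833483843) (.leaf 285942833483843) .bad) (.leaf 285942833483845)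
  (.leaf 285942833483845) .bad) .bad (.node 1 (.node 2 (.node 4 (.leaf 567486563749955) (.leaf
  567486546710595) (.leaf 285942850523203) .bad) (.leaf 285942833483843) (.node 4 .bad (.leaf
  285942833483843) (.leaf 285942850523203) .bad) .bad) (.leaf 285942833483845) (.node 4 .bad
  (.leaf 285942833483845) (.leaf 285942850523205) .bad) .bad)) .bad (.node 25 .bad (.node 1
  (.node 2 (.node 6 (.leaf 294877439463491) (.leaf 290409599471683) (.leaf 290410673475651)
  .bad) (.node 6 .bad (.leaf 290409599471683) (.leaf 285942833483843) .bad) (.leaf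
  285942833483843) .bad) (.node 6 .bad (.leaf 290409599471685) (.leaf 285942833483845) .bad)
  (.leaf 285942833483845) .bad) .bad (.node 1 (.node 2 (.node 4 (.node 6 (.leaf 290478336249922)
  .bad (.leaf 286011570262082) .bad) (.node 6 (.leaf 290478319210562) (.leaf 286080272437315)
  (.leaf 286011553222722) .bad) (.leaf 285942834008131) .bad) (.node 6 .bad (.leaf
  286080272437315) (.leaf 285942833483843) .bad) (.node 4 .bad (.leaf 285942833483843) (.leaf
  285942834008131) .bad) .bad) (.node 6 .bad (.leaf 286080272437317) (.leaf 285942833483845)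
  .bad) (.node 4 .bad (.leaf 285942833483845) (.leaf 285942834008133) .bad) .bad))) .bad (.node
  1 (.node 3 (.node 5 (.leaf 286217712439361) .bad (.node 6 (.leaf 286080273485889) .bad (.leaf
  286080273485889) .bad) .bad) (.node 5 (.node 4 (.leaf 286217711915073) (.leaf 286217711915073)
  .bad .bad) (.node 2 (.leaf 286217711390787) (.leaf 286217711390787) .bad .bad) (.node 2 (.node
  4 (.node 6 (.leaf 286080272961601) .bad (.leaf 286080272961601) .bad) (.node 6 (.leaf
  286080272961601) (.leaf 286080272437315) (.leaf 286011553222722) .bad) (.leaf 285942834008131)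
  .bad) (.node 6 .bad (.leaf 286080272437315) (.leaf 286080272437315) .bad) (.node 4 .bad (.leaf
  285942834008131) (.leaf 285942834008131) .bad) .bad) .bad) (.node 2 (.leaf 285942834532419)
  .bad (.leaf 285942834532419) .bad) .bad) (.node 5 .bad (.leaf 286217711390789) (.node 6 .bad
  (.leaf 286080272437317) (.leaf 286080272437317) .bad) .bad) (.node 3 .bad (.node 4 .bad (.leaf
  285942834008133) (.leaf 285942834008133) .bad) (.leaf 285942834532421) .bad) .bad))))) (.node
  15 .bad .bad (.node 25 .bad (.node 26 .bad (.leaf 285944980967493) .bad (.leaf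
  285943924002885)) .bad (.node 22 .bad (.leaf 285942900592709) (.node 4 .bad (.leaf
  285942867038277) (.leaf 285942867038277) .bad) .bad)) (.leaf 285947128451141)))

theorem tree_ok : run tree full = true := by decide +kernel

end Pool.Agent.V8H16.Theta
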